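import Pool.Agent.W250.RS.Stm

/-!
# Bounded differences
-/

set_option autoImplicit false

open Finset

namespace Pool.Agent.W366.RS

open Pool.Agent.W250.RS

variable {α : Type}

theorem exp_bound (z D L : ℝ) (hD : 0 < D) (hz : |z| ≤ D) :
    Real.exp (L * z) ≤ Real.cosh (L * D) + z / D * Real.sinh (L * D) := by
  obtain ⟨h1, h2⟩ := abs_le.1 hz
  have hc := convexOn_exp.2 (Set.mem_univ (L * D)) (Set.mem_univ (-(L * D)))
    (show 0 ≤ (D + z) / (2 * D) from div_nonneg (by linarith) (by linarith))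
    (show 0 ≤ (D - z) / (2 * D) from div_nonneg (by linarith) (by linarith))
    (by field_simp; ring)
  have e1 : ((D + z) / (2 * D)) * (L * D) + ((D - z) / (2 * D)) * (-(L * D)) = L * z := by
    field_simp
    ring
  rw [smul_eq_mul, smul_eq_mul, smul_eq_mul, smul_eq_mul, e1] at hc
  refine hc.trans (le_of_eq ?_)
  rw [Real.cosh_eq, Real.sinh_eq]
  field_simp
  ring

theorem sum_exp (X : Finset α) (z : α → ℝ) (D L : ℝ) (hD : 0 < D) (hz : ∀ a ∈ X, |z a| ≤ D)
    (h0 : ∑ a ∈ X, z a = 0) : ∑ a ∈ X, Real.exp (L * z a) ≤ X.card * Real.exp (L ^ 2 * D ^ 2) := by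
  calc ∑ a ∈ X, Real.exp (L * z a)
      ≤ ∑ a ∈ X, (Real.cosh (L * D) + z a / D * Real.sinh (L * D)) :=
        Finset.sum_le_sum fun a ha => exp_bound (z a) D L hD (hz a ha)
    _ = X.card * Real.cosh (L * D) := by
        rw [Finset.sum_add_distrib, Finset.sum_const, nsmul_eq_mul, ← Finset.sum_mul,
          ← Finset.sum_div, h0, zero_div, zero_mul, add_zero]
    _ ≤ X.card * Real.exp (L ^ 2 * D ^ 2) := by
        refine mul_le_mul_of_nonneg_left ?_ (Nat.cast_nonneg _)
        refine (Real.cosh_le_exp_half_sq _).trans (Real.exp_le_exp.2 ?_)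
        have : 0 ≤ L ^ 2 * D ^ 2 := by positivity
        have e : (L * D) ^ 2 = L ^ 2 * D ^ 2 := by ring
        rw [e]
        linarith

theorem mem_tup (X : Finset α) (k : ℕ) (f : Fin k → α) : f ∈ tup X k ↔ ∀ i, f i ∈ X := by
  unfold tup
  exact Fintype.mem_piFinset

theorem card_tup (X : Finset α) (k : ℕ) : (tup X k).card = X.card ^ k := by
  unfold tup
  rw [Fintype.card_piFinset]
  simp

theorem sum_tup (X : Finset α) (N : ℕ) (g : (Fin (N + 1) → α) → ℝ) :
    ∑ f ∈ tup X (N + 1), g f = ∑ a ∈ X, ∑ f ∈ tup X N, g (Fin.cons a f : Fin (N + 1) → α) := by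
  rw [← Finset.sum_product']
  refine Finset.sum_nbij' (fun f => (f 0, Fin.tail f))
    (fun p => (Fin.cons p.1 p.2 : Fin (N + 1) → α)) ?_ ?_ ?_ ?_ ?_
  · intro f hf
    rw [mem_tup] at hf
    rw [Finset.mem_product, mem_tup]
    exact ⟨hf 0, fun i => hf i.succ⟩
  · rintro ⟨a, f⟩ hp
    rw [Finset.mem_product, mem_tup] at hp
    rw [mem_tup]
    intro i
    refine Fin.cases ?_ (fun j => ?_) i
    · exact hp.1
    · exact hp.2 j
  · intro f _
    exact Fin.cons_self_tail f
  · rintro ⟨a, f⟩ _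
    rfl
  · intro f _
    rw [Fin.cons_self_tail]

theorem main [DecidableEq α] (X : Finset α) (hX : X.Nonempty) (D L : ℝ) (hD : 0 < D) :
    ∀ (N : ℕ) (F : (Fin N → α) → ℝ),
    (∀ f ∈ tup X N, ∀ i, ∀ a ∈ X, |F (Function.update f i a) - F f| ≤ D) →
    ∑ f ∈ tup X N, Real.exp (L * ((∑ f ∈ tup X N, F f) / (X.card : ℝ) ^ N - F f)) ≤
      (X.card : ℝ) ^ N * Real.exp (N * (L ^ 2 * D ^ 2)) := by
  have hc : (0 : ℝ) < X.card := by exact_mod_cast hX.card_pos
  intro N
  induction N with
  | zero =>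
    intro F _
    have h1 : tup X 0 = {Fin.elim0} := by
      ext f
      rw [mem_tup, Finset.mem_singleton]
      exact ⟨fun _ => Subsingleton.elim _ _, fun _ i => i.elim0⟩
    rw [h1, Finset.sum_singleton, Finset.sum_singleton]
    simp
  | succ N ih =>
    intro F hF
    set Ma : α → ℝ := fun a =>
      (∑ f ∈ tup X N, F (Fin.cons a f : Fin (N + 1) → α)) / (X.card : ℝ) ^ N with hMa
    set M : ℝ := (∑ f ∈ tup X (N + 1), F f) / (X.card : ℝ) ^ (N + 1) with hM
    have hpow : (0 : ℝ) < (X.card : ℝ) ^ N := pow_pos hc N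
    have hMsum : M * X.card = ∑ a ∈ X, Ma a := by
      rw [hM, hMa, sum_tup, ← Finset.sum_div, pow_succ]
      field_simp
    have hdiff : ∀ a ∈ X, ∀ b ∈ X, |Ma b - Ma a| ≤ D := by
      intro a ha b hb
      rw [hMa]
      simp only
      rw [← sub_div, abs_div, abs_of_pos hpow, div_le_iff₀ hpow, ← Finset.sum_sub_distrib]
      refine (Finset.abs_sum_le_sum_abs _ _).trans ?_
      have h1 : ∀ f ∈ tup X N, |F (Fin.cons b f : Fin (N + 1) → α) -
          F (Fin.cons a f : Fin (N + 1) → α)| ≤ D := by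
        intro f hf
        have h2 : (Fin.cons a f : Fin (N + 1) → α) ∈ tup X (N + 1) := by
          rw [mem_tup] at hf ⊢
          intro i
          refine Fin.cases ?_ (fun j => ?_) i
          · exact ha
          · exact hf j
        have h3 := hF _ h2 0 b hb
        rw [Fin.update_cons_zero] at h3
        exact h3
      refine (Finset.sum_le_sum h1).trans (le_of_eq ?_)
      rw [Finset.sum_const, card_tup, nsmul_eq_mul]
      push_cast
      ring
    have hz : ∀ a ∈ X, |M - Ma a| ≤ D := by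
      intro a ha
      have h1 : (M - Ma a) * X.card = ∑ b ∈ X, (Ma b - Ma a) := by
        rw [Finset.sum_sub_distrib, ← hMsum, Finset.sum_const, nsmul_eq_mul]
        ring
      have h2 : |M - Ma a| * X.card ≤ D * X.card := by
        have h3 : |M - Ma a| * X.card = |(M - Ma a) * X.card| := by
          rw [abs_mul, abs_of_pos hc]
        rw [h3, h1]
        refine (Finset.abs_sum_le_sum_abs _ _).trans ?_
        refine (Finset.sum_le_sum fun b hb => hdiff a ha b hb).trans (le_of_eq ?_)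
        rw [Finset.sum_const, nsmul_eq_mul]
        ring
      exact le_of_mul_le_mul_right h2 hc
    have hz0 : ∑ a ∈ X, (M - Ma a) = 0 := by
      rw [Finset.sum_sub_distrib, ← hMsum, Finset.sum_const, nsmul_eq_mul]
      ring
    have hih : ∀ a ∈ X, ∑ f ∈ tup X N, Real.exp (L * (Ma a - F (Fin.cons a f : Fin (N + 1) → α)))
        ≤ (X.card : ℝ) ^ N * Real.exp (N * (L ^ 2 * D ^ 2)) := by
      intro a ha
      refine ih (fun f => F (Fin.cons a f : Fin (N + 1) → α)) fun f hf i b hb => ?_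
      have h2 : (Fin.cons a f : Fin (N + 1) → α) ∈ tup X (N + 1) := by
        rw [mem_tup] at hf ⊢
        intro i
        refine Fin.cases ?_ (fun j => ?_) i
        · exact ha
        · exact hf j
      have h3 := hF _ h2 i.succ b hb
      rw [← Fin.cons_update] at h3
      exact h3
    rw [sum_tup]
    calc ∑ a ∈ X, ∑ f ∈ tup X N, Real.exp (L * (M - F (Fin.cons a f : Fin (N + 1) → α)))
        = ∑ a ∈ X, Real.exp (L * (M - Ma a)) *
            ∑ f ∈ tup X N, Real.exp (L * (Ma a - F (Fin.cons a f : Fin (N + 1) → α))) := by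
          refine Finset.sum_congr rfl fun a _ => ?_
          rw [Finset.mul_sum]
          refine Finset.sum_congr rfl fun f _ => ?_
          rw [← Real.exp_add]
          refine congrArg Real.exp ?_
          ring
      _ ≤ ∑ a ∈ X, Real.exp (L * (M - Ma a)) *
            ((X.card : ℝ) ^ N * Real.exp (N * (L ^ 2 * D ^ 2))) :=
          Finset.sum_le_sum fun a ha => mul_le_mul_of_nonneg_left (hih a ha) (Real.exp_pos _).le
      _ = (∑ a ∈ X, Real.exp (L * (M - Ma a))) *
            ((X.card : ℝ) ^ N * Real.exp (N * (L ^ 2 * D ^ 2))) := by rw [Finset.sum_mul]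
      _ ≤ (X.card * Real.exp (L ^ 2 * D ^ 2)) *
            ((X.card : ℝ) ^ N * Real.exp (N * (L ^ 2 * D ^ 2))) :=
          mul_le_mul_of_nonneg_right (sum_exp X (fun a => M - Ma a) D L hD hz hz0)
            (by positivity)
      _ = (X.card : ℝ) ^ (N + 1) * Real.exp ((N + 1 : ℕ) * (L ^ 2 * D ^ 2)) := by
          have e1 : ((N + 1 : ℕ) : ℝ) * (L ^ 2 * D ^ 2) =
              L ^ 2 * D ^ 2 + N * (L ^ 2 * D ^ 2) := by
            push_cast
            ring
          rw [e1, Real.exp_add, pow_succ]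
          ring

/-- MC. -/
theorem s_mc : S_MC := by
  intro α _ X hX N F D μ t hN hD ht hF hμ
  have hc : (0 : ℝ) < X.card := by exact_mod_cast hX.card_pos
  have hpow : (0 : ℝ) < (X.card : ℝ) ^ N := pow_pos hc N
  have hNR : (0 : ℝ) < N := by exact_mod_cast hN
  set L : ℝ := t / (2 * N * D ^ 2) with hL
  have hL0 : 0 ≤ L := div_nonneg ht (by positivity)
  have hmain := main X hX D L hD N F hF
  set M : ℝ := (∑ f ∈ tup X N, F f) / (X.card : ℝ) ^ N with hM
  have hμM : μ ≤ M := (le_div_iff₀ hpow).2 hμ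
  have h1 : (((tup X N).filter (fun f => F f ≤ μ - t)).card : ℝ) * Real.exp (L * t) ≤
      ∑ f ∈ tup X N, Real.exp (L * (M - F f)) := by
    calc (((tup X N).filter (fun f => F f ≤ μ - t)).card : ℝ) * Real.exp (L * t)
        = ∑ f ∈ (tup X N).filter (fun f => F f ≤ μ - t), Real.exp (L * t) := by
          rw [Finset.sum_const, nsmul_eq_mul]
      _ ≤ ∑ f ∈ (tup X N).filter (fun f => F f ≤ μ - t), Real.exp (L * (M - F f)) := by
          refine Finset.sum_le_sum fun f hf => Real.exp_le_exp.2 ?_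
          have h2 := (Finset.mem_filter.1 hf).2
          exact mul_le_mul_of_nonneg_left (by linarith) hL0
      _ ≤ ∑ f ∈ tup X N, Real.exp (L * (M - F f)) :=
          Finset.sum_le_sum_of_subset_of_nonneg (Finset.filter_subset _ _)
            fun f _ _ => (Real.exp_pos _).le
  have h2 := h1.trans hmain
  have h3 : Real.exp (-(t ^ 2 / (4 * N * D ^ 2))) * (X.card : ℝ) ^ N * Real.exp (L * t) =
      (X.card : ℝ) ^ N * Real.exp (N * (L ^ 2 * D ^ 2)) := by
    have e1 : Real.exp (-(t ^ 2 / (4 * N * D ^ 2))) * (X.card : ℝ) ^ N * Real.exp (L * t) =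
        (X.card : ℝ) ^ N * (Real.exp (-(t ^ 2 / (4 * N * D ^ 2))) * Real.exp (L * t)) := by ring
    rw [e1, ← Real.exp_add]
    refine congrArg (fun y => (X.card : ℝ) ^ N * Real.exp y) ?_
    rw [hL]
    field_simp
    ring
  rw [← h3] at h2
  exact le_of_mul_le_mul_right h2 (Real.exp_pos _)

end Pool.Agent.W366.RS
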